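import Pool.Agent.P.MP_7a6434d8_pr.QL.BM.All

/-!
Simple random walk on a uniform quadrangulation converges to Liouville Brownian motion on the
Brownian map, in the GHPU topology, after a deterministic linear time change.
-/

open MeasureTheory ProbabilityTheory Set Filter Topology Metric
open scoped ENNReal NNReal

namespace Pool.Agent.Results.MP_7a6434d8_pr.LBM

open Pool.Agent.LGD Pool.Agent.P.MP_7a6434d8_pr Pool.Agent.QL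

theorem result (c₀ : ℝ) (hc : 0 < c₀) (D : Dist → ℂ → ℂ → ℝ)
    (hD : IsLQGMetric (√(8 / 3)) (√(8 / 3) / 4) D) (θ : Test) (Θ : ℝ → ℂ → Test)
    (hθ : IsMollifier θ Θ) (Ω : Type) [MeasurableSpace Ω] (P₀ P : Measure Ω)
    [IsProbabilityMeasure P₀] [IsProbabilityMeasure P] (hP : P ≪ P₀) (hP' : P₀ ≪ P)
    (h : Ω → Dist) (hh : IsGFF P₀ h) (μ₀ : Ω → Measure ℂ)
    (hμ₀ : IsLQGMeasure P₀ h (√(8 / 3)) c₀ Θ μ₀) (f : ℂ → ℝ)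
    (hf : ContDiffOn ℝ (⊤ : ℕ∞) f {0, 1}ᶜ) (d : Ω → Sph → Sph → ℝ)
    (hd : ∀ x y, Measurable fun ω => d ω x y) (μ : Ω → Measure ℂ)
    (hS : ∀ᵐ ω ∂P, IsSphere (√(8 / 3)) D f (h ω) (μ₀ ω) (d ω) (μ ω))
    (W : Measure Path) (hW : IsWiener W) (L : Kernel Ω Path) [IsMarkovKernel L]
    (hL : ∀ᵐ ω ∂P, IsLBM W (μ ω) (L ω))
    (Γ : Measure ((Ω × Path) × Snake)) (hΓ : Γ.fst = P ⊗ₘ L) (hZ : IsSnake Γ.snd)
    (hM : ∀ᵐ p ∂Γ, IsMapOf p.2 (d p.1.1) (μ p.1.1) (p.1.2.1 0)) :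
    ∃ a : ℕ → ℝ≥0, (∀ n, 0 < a n) ∧ ConvLaw jointLaw (P ⊗ₘ L) fun n p r =>
      gh (mdist (Quot.out p.1)) (vmeas (Quot.out p.1)) (d r.1) ((μ r.1).map (↑))
        (curveTerm (fun t => curve p.2 (a n * t)) fun t => (r.2.1 t : Sph)) :=
  BM.target2_all c₀ hc D hD θ Θ hθ Ω P₀ P hP hP' h hh μ₀ hμ₀ f hf d hd μ hS W hW L hL Γ hΓ hZ hM

end Pool.Agent.Results.MP_7a6434d8_pr.LBM
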