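import Pool.Agent.P.MP_7a6434d8_pr.USpecAS
import Pool.Agent.P.MP_7a6434d8_pr.UExist

/-!
Spectral dimension two for the local limit of uniform planar quadrangulations: almost surely the
quenched probability that simple random walk is back at the root vertex at time `2 t` is
`t ^ (-1 + o(1))`.
-/

namespace Pool.Agent.Results.MP_7a6434d8_pr.UIPQSpec

open Pool.Agent.P.MP_7a6434d8_pr MeasureTheory Filter Topology

theorem result : (∃ μ : Measure InfQuad, IsLocalLimit μ) ∧
    ∀ μ : Measure InfQuad, IsLocalLimit μ → ∀ᵐ M ∂μ, Tendsto (fun t : ℕ =>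
      Real.log (M.pathLaw.real {X | X (2 * t) = M.tail M.root}) / Real.log t) atTop (𝓝 (-1)) :=
  ⟨exists_localLimit, uipq_spec⟩

end Pool.Agent.Results.MP_7a6434d8_pr.UIPQSpec
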