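import Pool.Agent.P.MP_7a6434d8_pr.ZWalkDim

/-!
Exit time of simple random walk from the ball of radius `R` around the root vertex of a uniform
rooted planar quadrangulation with `n` faces, uniformly in `n`: it is `R ^ (4 + o(1))` at all
scales, outside a set of maps of proportion `R ^ (-δ)`.
-/

namespace Pool.Agent.Results.MP_7a6434d8_pr.WalkDim

open Pool.Agent.P.MP_7a6434d8_pr

theorem result (ε : ℝ) (hε : 0 < ε) : ∃ δ : ℝ, 0 < δ ∧ ∃ R0 : ℕ, ∀ R : ℕ, R0 ≤ R →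
    ∀ n : ℕ, 1 ≤ n → 0 < Nat.card (RootedQuad n) ∧
    (Nat.card {c : RootedQuad n // ∃ q : Quad n, Quot.mk _ q = c ∧
        ¬ (((R : ℝ) ≤ (n : ℝ) ^ (1 / 4 : ℝ) / Real.log n →
              ∃ v, R < q.graph.dist (q.tail q.root) v) ∧
          q.escape (q.tail q.root) ⌊(R : ℝ) ^ (4 - ε)⌋₊ R ≤ ENNReal.ofReal ((R : ℝ) ^ (-δ)) ∧
          ((∃ v, R < q.graph.dist (q.tail q.root) v) → ENNReal.ofReal (1 - (R : ℝ) ^ (-δ))
              ≤ q.escape (q.tail q.root) ⌊(R : ℝ) ^ (4 + ε)⌋₊ R))} : ℝ)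
      ≤ (Nat.card (RootedQuad n) : ℝ) / (R : ℝ) ^ δ :=
  walk_dim ε hε

end Pool.Agent.Results.MP_7a6434d8_pr.WalkDim
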